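import Pool.Agent.Helper48.IF.Defs
import Pool.Agent.Helper48.SW.Facet

set_option autoImplicit false

/-! # Weighted initial forms: the proofs of the statements -/

namespace Pool.Agent.Helper48.IF

open MvPolynomial Pool.Agent.H628R4.TP Pool.Agent.W574.MO Pool.Agent.Helper48.SN

theorem t_root (c k : ℕ) (w : Fin c → ℕ) (d : ℕ) (φ : MvPolynomial (Fin c) ℂ)
    (hφ : NonexactForm w d φ) (f : MvPowerSeries (Fin c ⊕ Fin k) ℂ) (hf : InitialAlong w d φ f)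
    (b : Polynomial ℂ) (hb : IsFormalBFunction f b) :
    b.eval (-((∑ i, w i : ℕ) : ℂ) / d) = 0 :=
  SW.root_nonexact w d φ hφ f hf b hb

theorem t_chart (c : ℕ) (w : Fin c → ℕ) (d : ℕ) (φ : MvPolynomial (Fin c) ℂ)
    (hw : ∀ i, 0 < w i) (hd : 0 < d) (hφ : ChartForm φ) : NonexactForm w d φ := by
  refine ⟨hw, hd, ?_⟩
  rintro ⟨k, Θ, -, h1, h2⟩
  exact SW.ChartForm.not_exact hφ k Θ h1 h2

theorem t_facet (c : ℕ) (w : Fin c → ℕ) (d : ℕ) (φ : MvPolynomial (Fin c) ℂ)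
    (hφ : FacetForm w d φ) : NonexactForm w d φ :=
  t_chart c w d φ hφ.2.1 hφ.2.2.1 (SW.FacetForm.chart hφ)

theorem t_init (N : ℕ) (w : Fin N → ℕ) (d : ℕ) (φ f : MvPolynomial (Fin N) ℂ)
    (hφ : NonexactForm w d φ) (h : InitialAtOrigin w f d φ) :
    GlobalDatum f d (∑ i, w i) ∧ LocalDatum f d (∑ i, w i) :=
  ⟨Or.inr ⟨0, SW.from_init w d φ f hφ h⟩, Or.inr fun _ hH => ⟨0, hH, SW.from_init w d φ f hφ h⟩⟩

theorem fromInitialForm_pos {N : ℕ} {f : MvPolynomial (Fin N) ℂ} {x : Fin N → ℂ} {m ν : ℕ}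
    (h : FromInitialForm f x m ν) : 1 ≤ ν := by
  obtain ⟨c, k, w, Ψ, φ, hφ, hcone, rfl⟩ := h
  exact (SW.NonexactForm.pos hφ hcone.1).2

theorem root_of_prime {N : ℕ} (f H p q : MvPolynomial (Fin N) ℂ) (m : ℕ) (hm : 1 ≤ m)
    (b : Polynomial ℂ) (hb : FEq f H b) (hp : Prime p) (hf : f = p ^ m * q) (hpq : ¬ p ∣ q)
    (hpH : ¬ p ∣ H) : b.eval (-((1 : ℕ) : ℂ) / m) = 0 := by
  have h := root_of_mult_feq f p q H m hm hf hp hpq hpH b hb
  rw [Nat.cast_one]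
  exact h

theorem global_root {N : ℕ} (f : MvPolynomial (Fin N) ℂ) (b : Polynomial ℂ)
    (hb : IsBFunction f b) (m ν : ℕ) (hm : 1 ≤ m) (h : GlobalDatum f m ν) :
    b.eval (-(ν : ℂ) / m) = 0 := by
  have hF := feq_one f b hb
  rcases h with ⟨rfl, p, q, hp, hf, hpq⟩ | ⟨x, hx⟩
  · exact root_of_prime f 1 p q m hm b hF hp hf hpq fun h1 => hp.not_isUnit (isUnit_of_dvd_one h1)
  · exact SW.root_feq f 1 x m ν hx (by rw [map_one]; exact one_ne_zero) b hF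

theorem local_root {N : ℕ} (f : MvPolynomial (Fin N) ℂ) (hf0 : f ≠ 0) (b : Polynomial ℂ)
    (hb : IsLocalBFunction f b) (m ν : ℕ) (hm : 1 ≤ m) (h : LocalDatum f m ν) :
    b.eval (-(ν : ℂ) / m) = 0 := by
  obtain ⟨H, hH, hF⟩ := feq_local f hf0 b hb
  rcases h with ⟨rfl, p, q, hp, hp0, hf, hpq⟩ | h
  · refine root_of_prime f H p q m hm b hF hp hf hpq ?_
    rintro ⟨g, rfl⟩
    rw [map_mul, hp0, zero_mul] at hH
    exact hH rfl
  · obtain ⟨x, hx, hx'⟩ := h H hH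
    exact SW.root_feq f H x m ν hx' hx b hF

theorem local_pos {N : ℕ} {f : MvPolynomial (Fin N) ℂ} {m ν : ℕ} (h : LocalDatum f m ν) :
    1 ≤ ν := by
  rcases h with ⟨rfl, -⟩ | h
  · exact le_rfl
  · obtain ⟨x, -, hx⟩ := h 1 (by rw [map_one]; exact one_ne_zero)
    exact fromInitialForm_pos hx

theorem global_pos {N : ℕ} {f : MvPolynomial (Fin N) ℂ} {m ν : ℕ} (h : GlobalDatum f m ν) :
    1 ≤ ν := by
  rcases h with ⟨rfl, -⟩ | ⟨x, hx⟩
  · exact le_rfl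
  · exact fromInitialForm_pos hx

theorem rootRing_eq {M : Type} [CommRing M] (L : Mˣ) (b : Polynomial ℂ) :
    rootRing L b = DenRing L (RootPair b) := rfl

theorem factor_eq {M : Type} [CommRing M] (L : Mˣ) (N ν : ℕ) : factor L N ν = mf L N ν := rfl

theorem conjecture_of {S : Type} [Fintype S] (Nν : S → ℕ × ℕ) (b : Polynomial ℂ)
    (hν : ∀ i, 1 ≤ (Nν i).2)
    (h : ∀ i, 1 ≤ (Nν i).1 → b.eval (-((Nν i).2 : ℂ) / (Nν i).1) = 0) : Conjecture Nν b := by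
  classical
  refine ⟨h, fun M _ L z => ?_⟩
  rw [rootRing_eq]
  refine Subring.sum_mem _ fun I _ => Subring.mul_mem _ ?_ ?_
  · exact Subring.subset_closure (Or.inl ⟨z I, rfl⟩)
  · exact Subring.prod_mem _ fun i _ => mf_mem (hν i) (h i)

theorem t_global (N : ℕ) (f : MvPolynomial (Fin N) ℂ) (b : Polynomial ℂ) (hb : IsBFunction f b)
    (S : Type) [Fintype S] (Nν : S → ℕ × ℕ) (h : ∀ i, GlobalDatum f (Nν i).1 (Nν i).2) :
    Conjecture Nν b :=
  conjecture_of Nν b (fun i => global_pos (h i)) fun i hi => global_root f b hb _ _ hi (h i)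

theorem t_local (N : ℕ) (f : MvPolynomial (Fin N) ℂ) (hf : f ≠ 0) (b : Polynomial ℂ)
    (hb : IsLocalBFunction f b) (S : Type) [Fintype S] (Nν : S → ℕ × ℕ)
    (h : ∀ i, LocalDatum f (Nν i).1 (Nν i).2) : Conjecture Nν b :=
  conjecture_of Nν b (fun i => local_pos (h i)) fun i hi => local_root f hf b hb _ _ hi (h i)

section Explicit

variable {N r : ℕ} (w : Fin N → ℕ) (f F : Fin r → MvPolynomial (Fin N) ℂ) (e n : Fin r → ℕ)
  (u : MvPolynomial (Fin N) ℂ) (hN : 2 ≤ N) (hw : ∀ i, 0 < w i)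
  (hf : ∀ i, InitialAtOrigin w (f i) (e i) (F i)) (he : ∀ i, 0 < e i) (hn : ∀ i, 1 ≤ n i)
  (hF : NormalCrossing F) (hu : eval 0 u ≠ 0)

include hN hf hF hu

theorem f_ne0 : u * ∏ i, f i ^ n i ≠ 0 := by
  refine mul_ne_zero ?_ (Finset.prod_ne_zero_iff.2 fun i _ => pow_ne_zero _
    (SW.f_ne hN w f F e hf hF i))
  rintro rfl
  exact hu (map_zero _)

include hw he

theorem t_prime (i : Fin r) : GlobalDatum (u * ∏ i, f i ^ n i) (n i) 1 ∧
    LocalDatum (u * ∏ i, f i ^ n i) (n i) 1 := by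
  obtain ⟨p, q, hp, hp0, h, hpq⟩ := SW.prime_power hN w hw f F e n hf he hF u hu i
  exact ⟨Or.inl ⟨rfl, p, q, hp, h, hpq⟩, Or.inl ⟨rfl, p, q, hp, hp0, h, hpq⟩⟩

theorem t_explicit_ind (b : Polynomial ℂ) (hb : IsLocalBFunction (u * ∏ i, f i ^ n i) b) :
    Conjecture (fun i => (n i, 1)) b :=
  t_local N _ (f_ne0 w f F e n u hN hf hF hu) b hb _ _ fun i =>
    (t_prime w f F e n u hN hw hf he hF hu i).2

include hn

theorem t_origin (hli : DependentLinearParts F) :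
    FromInitialForm (u * ∏ i, f i ^ n i) 0 (∑ i, n i * e i) (∑ i, w i) :=
  SW.fromInitialForm hN w hw f F e n hf he hn hF hli u hu

theorem t_explicit (hli : DependentLinearParts F) (b : Polynomial ℂ)
    (hb : IsLocalBFunction (u * ∏ i, f i ^ n i) b) :
    Conjecture (fun j : Option (Fin r) => j.elim (∑ i, n i * e i, ∑ i, w i) fun i => (n i, 1))
      b := by
  refine t_local N _ (f_ne0 w f F e n u hN hf hF hu) b hb _ _ fun j => ?_
  rcases j with _ | i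
  · exact Or.inr fun H hH => ⟨0, hH, t_origin w f F e n u hN hw hf he hn hF hu hli⟩
  · exact (t_prime w f F e n u hN hw hf he hF hu i).2

end Explicit

end Pool.Agent.Helper48.IF
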