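import Pool.Graph.R_seed8.H628R4.TP.LocDefs

set_option autoImplicit false

/-! # Weighted initial forms, functional equations and the poles of the zeta functions

The definitions used in `Pool.Agent.Results.MP_b07157_ag.InitialForms`. `M` is a commutative ring with
a unit `L`, for example `M = K₀(Var_ℂ)[1/L]`; the variable of `PowerSeries M` is called `T`. -/

namespace Pool.Agent.Helper48.IF

open MvPolynomial Pool.Agent.H628R4.TP

section Forms

/-- The hypersurfaces `F_i = 0` have normal crossings outside the origin: the gradients at a point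
`x ≠ 0` of the `F_i` with `F_i(x) = 0` are linearly independent. -/
def NormalCrossing {N : ℕ} {ι : Type} (F : ι → MvPolynomial (Fin N) ℂ) : Prop :=
  ∀ (I : Finset ι) (x : Fin N → ℂ), x ≠ 0 → (∀ i ∈ I, eval x (F i) = 0) →
    LinearIndependent ℂ fun (i : I) (j : Fin N) => eval x (pderiv j (F i))

/-- The linear parts of the `F_i` at the origin are linearly dependent (for example, because an `F_i` has
no linear part, or because there are more than `N` of the `F_i`). -/
def DependentLinearParts {N : ℕ} {ι : Type} (F : ι → MvPolynomial (Fin N) ℂ) : Prop :=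
  ¬ LinearIndependent ℂ fun (i : ι) (j : Fin N) => eval 0 (pderiv j (F i))

/-- `φ(x)` has normal crossings, but not at the origin, in a chart `x = h(y)`: in `c ≥ 2` variables
`y_i` with weights `v_i > 0` there are weighted homogeneous `F_k` of weights `e_k > 0` such that the
hypersurfaces `F_k = 0` have normal crossings outside the origin, but not at the origin (the `F_k` are
not part of a coordinate system: their linear parts are linearly dependent), and
`φ(h(y)) = ∏ F_k ^ n_k` with arbitrary `n_k ≥ 1`, `det(∂h/∂y) = a ∏ F_k ^ m_k`, `a ≠ 0`. The twisted form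
`φ ^ (-ν/d) Ω` is then `∏ F_k ^ (-λ_k) Ω` up to a constant, where `λ_k = n_k β - m_k`,
`β = (∑ v_j + ∑ m_j e_j) / ∑ n_j e_j`. The last condition is that no `λ_k` is in `{0, -1, -2, ...}`.

If `h` is the identity (`m_k = 0`), this is the case of all forms `φ = ∏ F_k ^ n_k` with normal
crossings outside the origin; the last condition holds, since `λ_k > 0`. -/
def ChartForm {c : ℕ} (φ : MvPolynomial (Fin c) ℂ) : Prop :=
  2 ≤ c ∧ ∃ (v : Fin c → ℕ) (h : Fin c → MvPolynomial (Fin c) ℂ) (a : ℂ) (ι : Type)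
    (_ : Fintype ι) (F : ι → MvPolynomial (Fin c) ℂ) (e n m : ι → ℕ),
    (∀ i, 0 < v i) ∧ (∀ k, IsWeightedHomogeneous v (F k) (e k)) ∧ (∀ k, 0 < e k) ∧
    (∀ k, 1 ≤ n k) ∧ NormalCrossing F ∧ DependentLinearParts F ∧ a ≠ 0 ∧
    (Matrix.of fun j i => pderiv i (h j)).det = C a * ∏ k, F k ^ m k ∧
    aeval h φ = ∏ k, F k ^ n k ∧
    ∀ (k : ι) (l : ℕ), n k * (∑ j, v j + ∑ j, m j * e j) + l * ∑ j, n j * e j ≠
      m k * ∑ j, n j * e j

/-- `φ` is weighted homogeneous of weight `d` with positive weights `w_j`, and has normal crossings, but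
not at the origin, in a monomial chart `x_j = ∏_i y_i ^ A_ij` with weights `v_i` of the `y_i` such that
`w` is proportional to `∑ v_i A_i` (`A_i` are the rows of the matrix `A`, `det A ≠ 0`): the pull-back of
`φ` is `∏ y_i ^ m_i ∏ G_k ^ n_k`, and the `y_i` with `m_i > 0` together with the `G_k` satisfy the
conditions of `ChartForm`; if `m_i = 0`, then `A_i` is a unit vector. The residue numbers
`ν_i - m_i |w| / d`, where `m_i > 0` and `ν_i = ∑_j A_ij`, are not positive integers.

This is the toric chart of a compact facet `τ` of a Newton polyhedron which is a simplex: `w` is the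
normal vector of `τ`, `φ` is the face polynomial, and `A_i` is a vector such that `w` and `A_i` are a
basis of the lattice of the plane spanned by `w` and the normal vector of the adjacent facet `τ_i` (the
unit vector, if this is possible); the residue numbers are then those of Loeser. The normal crossings
follow from the nondegeneracy of `φ`, and the linear parts are linearly dependent unless `τ` is a
`B_1`-facet. -/
def FacetForm {c : ℕ} (w : Fin c → ℕ) (d : ℕ) (φ : MvPolynomial (Fin c) ℂ) : Prop :=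
  2 ≤ c ∧ (∀ i, 0 < w i) ∧ 0 < d ∧ IsWeightedHomogeneous w φ d ∧
  ∃ (A : Fin c → Fin c → ℕ) (v : Fin c → ℕ) (t : ℕ) (m : Fin c → ℕ) (r : ℕ)
    (G : Fin r → MvPolynomial (Fin c) ℂ) (e n : Fin r → ℕ),
    (Matrix.of fun i j => (A i j : ℂ)).det ≠ 0 ∧ (∀ i, 0 < v i) ∧ 0 < t ∧
    (∀ j, ∑ i, v i * A i j = t * w j) ∧
    (∀ k, IsWeightedHomogeneous v (G k) (e k)) ∧ (∀ k, 0 < e k) ∧ (∀ k, 1 ≤ n k) ∧
    aeval (fun j => ∏ i, X i ^ A i j : Fin c → MvPolynomial (Fin c) ℂ) φ =
      (∏ i, X i ^ m i) * ∏ k, G k ^ n k ∧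
    NormalCrossing (Sum.elim (fun i : {i // 0 < m i} => (X i.1 : MvPolynomial (Fin c) ℂ)) G) ∧
    DependentLinearParts
      (Sum.elim (fun i : {i // 0 < m i} => (X i.1 : MvPolynomial (Fin c) ℂ)) G) ∧
    (∀ i, m i = 0 → ∑ j, A i j = 1) ∧
    ∀ i, 0 < m i → ∀ l : ℕ, 1 ≤ l → m i * ∑ j, w j + l * d ≠ (∑ j, A i j) * d

/-- With `ν = ∑ w_i` and `Ω = ∑_i (-1) ^ i w_i x_i dx_0 ∧ .. (without dx_i) .. ∧ dx_(c-1)`, the twisted
form `φ ^ (-ν/d) Ω` on the complement of `φ = 0` (in the weighted projective space) is not exact: there is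
no polynomial vector field `Θ` of weight `d k` with `Θ φ = 0` and `div Θ = φ ^ k` (the primitive would be
`φ ^ (-ν/d-k) ι_E ι_Θ dx`, where `E` is the Euler vector field). -/
def NonexactForm {c : ℕ} (w : Fin c → ℕ) (d : ℕ) (φ : MvPolynomial (Fin c) ℂ) : Prop :=
  (∀ i, 0 < w i) ∧ 0 < d ∧ ¬ ∃ (k : ℕ) (Θ : Fin c → MvPolynomial (Fin c) ℂ),
    (∀ i, IsWeightedHomogeneous w (Θ i) (d * k + w i)) ∧
      ∑ i, Θ i * pderiv i φ = 0 ∧ ∑ i, pderiv i (Θ i) = φ ^ k

/-- `φ` is the weighted initial form of the power series `g(x, y)` along the smooth centre `x = 0`,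
restricted to the normal space at the origin, and `d` is its weight: all monomials `x ^ α y ^ β` of `g`
have `w · α ≥ d`, and the part of weight `d` of `g(x, 0)` is `φ(x)`. -/
def InitialAlong {c k : ℕ} (w : Fin c → ℕ) (d : ℕ) (φ : MvPolynomial (Fin c) ℂ)
    (g : MvPowerSeries (Fin c ⊕ Fin k) ℂ) : Prop :=
  IsWeightedHomogeneous w φ d ∧
  (∀ (α : Fin c →₀ ℕ) (β : Fin k →₀ ℕ), Finsupp.weight w α < d →
    MvPowerSeries.coeff (α.sumElim β) g = 0) ∧
  ∀ α : Fin c →₀ ℕ, Finsupp.weight w α = d → MvPowerSeries.coeff (α.sumElim 0) g = coeff α φ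

/-- `F` is the initial form of the polynomial `f` at the origin, and its weight is `e`: `F` is weighted
homogeneous of weight `e`, and `f - F` has only monomials of weight `> e`. -/
def InitialAtOrigin {N : ℕ} (w : Fin N → ℕ) (f : MvPolynomial (Fin N) ℂ) (e : ℕ)
    (F : MvPolynomial (Fin N) ℂ) : Prop :=
  IsWeightedHomogeneous w F e ∧
    ∀ α : Fin N →₀ ℕ, Finsupp.weight w α ≤ e → coeff α f = coeff α F

/-- The numbers `(m, ν)` come from an initial form of `f` at the point `p`: in suitable formal coordinates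
`x_1, ..., x_c, y_1, ..., y_k` at `p` (`Ψ`), the weighted initial form `φ` of `f` along `x = 0` has weight
`m` and is non-exact, and `ν = ∑ w_i`. In geometric terms (if the `w_i` have no common divisor): `(m, ν)`
are the numerical data `(N, ν)` of the exceptional divisor of the weighted blow-up with the centre
`x = 0`. -/
def FromInitialForm {N : ℕ} (f : MvPolynomial (Fin N) ℂ) (p : Fin N → ℂ) (m ν : ℕ) : Prop :=
  ∃ (c k : ℕ) (w : Fin c → ℕ)
    (Ψ : MvPowerSeries (Fin N) ℂ ≃ₐ[ℂ] MvPowerSeries (Fin c ⊕ Fin k) ℂ)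
    (φ : MvPolynomial (Fin c) ℂ), NonexactForm w m φ ∧
    InitialAlong w m φ (Ψ ((aeval (fun i => X i + C (p i)) f : MvPolynomial (Fin N) ℂ) :
      MvPowerSeries (Fin N) ℂ)) ∧ ν = ∑ i, w i

/-- `(m, ν)` are the numerical data of the strict transform of a prime factor of multiplicity `m`
(and `ν = 1`), or come from a non-exact initial form of `f` at some point. -/
def GlobalDatum {N : ℕ} (f : MvPolynomial (Fin N) ℂ) (m ν : ℕ) : Prop :=
  (ν = 1 ∧ ∃ p q, Prime p ∧ f = p ^ m * q ∧ ¬ p ∣ q) ∨ ∃ x, FromInitialForm f x m ν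

/-- The same, locally at the origin: the prime factor vanishes at `0`; the points `x` where `(m, ν)`
come from a non-exact initial form are not contained in a hypersurface `H = 0` with `H(0) ≠ 0`. (This
holds if `x = 0` is such a point, or if `0` is a limit of such points.) -/
def LocalDatum {N : ℕ} (f : MvPolynomial (Fin N) ℂ) (m ν : ℕ) : Prop :=
  (ν = 1 ∧ ∃ p q, Prime p ∧ eval 0 p = 0 ∧ f = p ^ m * q ∧ ¬ p ∣ q) ∨
    ∀ H : MvPolynomial (Fin N) ℂ, eval 0 H ≠ 0 → ∃ x, eval x H ≠ 0 ∧ FromInitialForm f x m ν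

end Forms

section Equations

/-- The differential operators with formal power series coefficients: the algebra generated by the
multiplications by the formal power series and by the partial derivatives. -/
noncomputable def formalD (σ : Type) : Subalgebra ℂ (Module.End ℂ (MvPowerSeries σ ℂ)) :=
  Algebra.adjoin ℂ ((Set.range fun a : MvPowerSeries σ ℂ => LinearMap.mulLeft ℂ a) ∪
    Set.range fun i => ((MvPowerSeries.pderiv ℂ i :
      Derivation ℂ (MvPowerSeries σ ℂ) (MvPowerSeries σ ℂ)) :
        MvPowerSeries σ ℂ →ₗ[ℂ] MvPowerSeries σ ℂ))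

/-- `b(s) f ^ s = P(s) f ^ (s + 1)` for some `P(s) = ∑_m s ^ m P_m`, where the `P_m` are differential
operators with formal power series coefficients. The equation is stated for all `s ∈ ℕ`; this is
equivalent to the formal equation. -/
def IsFormalBFunction {σ : Type} (f : MvPowerSeries σ ℂ) (b : Polynomial ℂ) : Prop :=
  ∃ P : ℕ →₀ formalD σ, ∀ s : ℕ, (b.eval (s : ℂ)) • f ^ s =
    P.sum fun m Q => ((s : ℂ) ^ m) • (Q : Module.End ℂ (MvPowerSeries σ ℂ)) (f ^ (s + 1))

end Equations

section Zeta

variable {M : Type} [CommRing M]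

/-- The factor `(L - 1) L^(-ν) T^N / (1 - L^(-ν) T^N)` of a divisor with the numerical data `(N, ν)`,
`N ≥ 1` (and `1` if `N = 0`). -/
noncomputable def factor (L : Mˣ) (N ν : ℕ) : PowerSeries M :=
  if N = 0 then 1 else
    PowerSeries.C (((L : M) - 1) * ((L⁻¹ ^ ν : Mˣ) : M)) * PowerSeries.X ^ N *
      PowerSeries.invOfUnit (1 - PowerSeries.C ((L⁻¹ ^ ν : Mˣ) : M) * PowerSeries.X ^ N) 1

/-- The sum `∑_I z_I ∏_{i ∈ I} (L - 1) L^(-ν_i) T^(N_i) / (1 - L^(-ν_i) T^(N_i))` over the sets `I` of
divisors `E_i` with the numerical data `Nν i = (N_i, ν_i)`. The motivic zeta functions, global and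
local, have this form with `z_I ∈ M` for every embedded resolution whose divisors have these numerical
data (`z_I = L^(-n) [E_I°]` in the global case), and with `z_I ∈ M[T]` for every embedded resolution with
abelian quotient singularities, for example by weighted blow-ups. -/
noncomputable def zetaSum (L : Mˣ) {S : Type} [Fintype S] (Nν : S → ℕ × ℕ)
    (z : Finset S → Polynomial M) : PowerSeries M :=
  ∑ I : Finset S, (z I : PowerSeries M) * ∏ i ∈ I, factor L (Nν i).1 (Nν i).2

/-- The subring `M[T][(1 - L^(-ν) T^N)^(-1) : N, ν ≥ 1, b(-ν/N) = 0]` of `M⟦T⟧`: the series all whose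
poles are roots of `b`. -/
noncomputable def rootRing (L : Mˣ) (b : Polynomial ℂ) : Subring (PowerSeries M) :=
  Subring.closure (Set.range (fun p : Polynomial M => (p : PowerSeries M)) ∪
    {u | ∃ N ν : ℕ, 1 ≤ N ∧ 1 ≤ ν ∧ b.eval (-(ν : ℂ) / N) = 0 ∧
      u * (1 - PowerSeries.C ((L⁻¹ ^ ν : Mˣ) : M) * PowerSeries.X ^ N) = 1})

end Zeta

/-- **The conjecture** for a zeta function computed from divisors with the numerical data
`Nν i = (N_i, ν_i)`: the candidate poles `-ν_i/N_i` are roots of `b`, and all the poles of all sums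
of the shape of the motivic zeta function are roots of `b`. -/
def Conjecture {S : Type} [Fintype S] (Nν : S → ℕ × ℕ) (b : Polynomial ℂ) : Prop :=
  (∀ i, 1 ≤ (Nν i).1 → b.eval (-((Nν i).2 : ℂ) / (Nν i).1) = 0) ∧
    ∀ (M : Type) [CommRing M] (L : Mˣ) (z : Finset S → Polynomial M),
      zetaSum L Nν z ∈ rootRing L b

end Pool.Agent.Helper48.IF
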